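import Pool.Agent.Helper18.EW.Goals4
import Pool.Agent.Helper87.EW.Tri

/-!
# Packet EW-TriZ: from the game to the trapezoid
-/

set_option autoImplicit false

namespace Pool.Agent.Helper4.EW

open Finset
open Pool.Agent.Helper18.EW
open Pool.Agent.Helper43.Hw (T na va lz Play GoalH2 T_choose)
open Pool.Agent.Helper43.Gm (st mv nn Pri)
open Pool.Agent.Lead.Sh
open Pool.Agent.Helper18.SG (sig rl GoalS GoalA2 GoalF1)
open Pool.Agent.Helper87.EW (sum_comb rows_subset)

theorem goalTriZ (h2 : GoalH2) : GoalTriZ := by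
  intro hS hA2 hF1 hPG hG2 hSI p d h μ N K τ s E κ x e P hp hh hhd hμ hR hP hG hpa hk1 hk2
  obtain ⟨f1, f2, f3, -, -⟩ := hF1 p d h hp hh hhd
  obtain ⟨π, ε, hpri⟩ := hPG μ ((h - 1) / p + 1) N K τ s E κ x e P hμ hR hP hG hpa hk1 hk2
  have hrev := Pool.Agent.Helper43.Gm.PkF2.pri_rev _ _ _ _ _ _ hpri
  constructor
  · intro hle
    have h1 : Inj ((triZ d h).image (sig p)) (rows (fun _ => μ) (range (N + K))) := by
      refine hA2 ((h - 1) / p + 1) _ (N + K) _ _ _ _ f2 hrev ?_
      intro y hy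
      rw [f3 y hy, sum_comb, show (h - 1) / p + 1 - 1 - y = (h - 1) / p - y by omega]
      exact hle ((h - 1) / p - y) (by omega)
    exact hS p (triZ d h) _ _ hp f1 h1
  · intro hle
    obtain ⟨D2, hD2, c1, c2, c3⟩ := rows_subset ((h - 1) / p + 1) ((triZ d h).image (sig p))
      (fun y => ∑ c ∈ range (N + K), comb μ ((h - 1) / p + 1) N τ s κ x e P c ((h - 1) / p + 1 - 1 - y)) (by
        intro y hy
        rw [f3 y hy, sum_comb, show (h - 1) / p + 1 - 1 - y = (h - 1) / p - y by omega]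
        exact hle ((h - 1) / p - y) (by omega))
    have h1 : Inj D2 (rows (fun _ => μ) (range (N + K))) := by
      refine hA2 ((h - 1) / p + 1) _ (N + K) _ _ _ _ c2 hrev ?_
      intro y hy
      exact (c1 y hy).le
    have hcard : (rows (fun _ => μ) (range (N + K))).card = D2.card := by
      have e1 : ∑ y ∈ range ((h - 1) / p + 1),
          ∑ c ∈ range (N + K), comb μ ((h - 1) / p + 1) N τ s κ x e P c ((h - 1) / p + 1 - 1 - y) =
          ∑ y ∈ range ((h - 1) / p + 1),
          ∑ c ∈ range (N + K), comb μ ((h - 1) / p + 1) N τ s κ x e P c y :=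
        sum_range_reflect (fun y => ∑ c ∈ range (N + K), comb μ ((h - 1) / p + 1) N τ s κ x e P c y)
          ((h - 1) / p + 1)
      have e2 := (h2 μ ((h - 1) / p + 1) N κ x hμ hR hP).2.2.2
      have e3 := (hG2 μ ((h - 1) / p + 1) K τ s E e P hμ hG).1.2.2.2
      rw [c3, card_rows, e1]
      simp only [sum_comb]
      rw [sum_add_distrib, e2, e3, sum_const, card_range, smul_eq_mul, T_choose]
      ring
    obtain ⟨Q, hQ⟩ := h1
    have hInd : Ind D2 (rows (fun _ => μ) (range (N + K))) := ⟨Q, hQ.ind hcard⟩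
    exact hSI p (triZ d h) _ _ hS hp f1 (hInd.mono hD2 subset_rfl)

end Pool.Agent.Helper4.EW
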